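import Pool.Agent.Lib.MP_034ae1_an.Start

/-!
# A null, totally disconnected, compact planar set which is not c-removable

We answer Q1 of `MP_034ae1_an`: there is a compact totally disconnected set `E` in the plane, of
two-dimensional Lebesgue measure zero, which is not c-removable.  The function witnessing this is
even of class `C¹`.
-/

set_option autoImplicit false

open Set MeasureTheory

namespace Pool.Agent.Results.MP_034ae1_an.NullTotDisc

/-- `f` is locally convex on the (open) set `U`: every point of `U` has an open convex
neighbourhood `V ⊆ U` on which `f` is convex. -/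
def LocallyConvexOn (U : Set (EuclideanSpace ℝ (Fin 2))) (f : EuclideanSpace ℝ (Fin 2) → ℝ) :
    Prop :=
  ∀ z ∈ U, ∃ V : Set (EuclideanSpace ℝ (Fin 2)),
    IsOpen V ∧ Convex ℝ V ∧ z ∈ V ∧ V ⊆ U ∧ ConvexOn ℝ V f

/-- A set `A` in the plane is c-removable if every continuous function on the plane
which is locally convex on the complement of `A` is convex on the whole plane. -/
def CRemovable (A : Set (EuclideanSpace ℝ (Fin 2))) : Prop :=
  ∀ f : EuclideanSpace ℝ (Fin 2) → ℝ, Continuous f → LocallyConvexOn Aᶜ f → ConvexOn ℝ univ f

/-- There is a compact, totally disconnected, Lebesgue null set `E` in the plane which is not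
c-removable; moreover a non-convex function which is locally convex off `E` can be chosen of
class `C¹`. -/
theorem result :
    ∃ E : Set (EuclideanSpace ℝ (Fin 2)),
      IsCompact E ∧ IsTotallyDisconnected E ∧ volume E = 0 ∧ ¬ CRemovable E ∧
        ∃ f : EuclideanSpace ℝ (Fin 2) → ℝ,
          ContDiff ℝ 1 f ∧ LocallyConvexOn Eᶜ f ∧ ¬ ConvexOn ℝ univ f := by
  obtain ⟨E, hE, hTD, hvol, F, hF, hloc, hnc⟩ :=
    Pool.Agent.Lib.MP_034ae1_an.plane_example
  have hl : LocallyConvexOn Eᶜ F := fun z hz => hloc z hz
  exact ⟨E, hE, hTD, hvol, fun h => hnc (h F hF.continuous hl), F, hF, hl, hnc⟩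

end Pool.Agent.Results.MP_034ae1_an.NullTotDisc
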